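import Mathlib
set_option autoImplicit false
open MeasureTheory ProbabilityTheory Set Filter Topology
open scoped ENNReal
namespace Pool.Agent.H.MP_e9a110_co

lemma inner {Y : Type*} [MetricSpace Y] [MeasurableSpace Y] [OpensMeasurableSpace Y]
    (ν : Measure Y) [IsFiniteMeasure ν] {s : Set Y} (h : AnalyticSet s) {c : ℝ≥0∞}
    (c2 : c < ν s) : ∃ K ⊆ s, IsClosed K ∧ c ≤ ν K := by
  rw [AnalyticSet] at h
  obtain rfl | ⟨f, hf, rfl⟩ := h
  · simp at c2
  have k1 (n : ℕ) (S : Set (ℕ → ℕ)) (h : c < ν (f '' S)) :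
      ∃ b, c < ν (f '' (S ∩ {x | x n ≤ b})) := by
    have m : Monotone fun b => f '' (S ∩ {x | x n ≤ b}) := fun a b h =>
      image_mono (inter_subset_inter_right _ fun x k => le_trans k h)
    rwa [← lt_iSup_iff, ← m.measure_iUnion, ← image_iUnion, ← inter_iUnion,
      inter_eq_self_of_subset_left fun x _ => mem_iUnion.2 ⟨x n, le_refl (x n)⟩]
  choose! g k1 using k1
  let S : ℕ → Set (ℕ → ℕ) := Nat.rec univ fun n S => S ∩ {x | x n ≤ g n S}
  have k2 (n) : c < ν (f '' S n) := n.rec (image_univ ▸ c2) fun n => k1 n _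
  have k3 : Antitone S := antitone_nat_of_succ_le fun n => inter_subset_left
  have k4 : ⋂ n, closure (f '' S n) ⊆ range f := fun y hy => by
    choose z z1 z2 using fun n : ℕ => Metric.mem_closure_iff.1 (mem_iInter.1 hy n) _
      (Nat.one_div_pos_of_nat (n := n))
    choose x x1 x2 using z1
    obtain ⟨a, -, φ, k4, k5⟩ := (isCompact_univ_pi fun i => ((finite_Iic (g i (S i))).union
      ((finite_Iic i).image fun n => x n i)).isCompact).tendsto_subseq (x := x) fun n i _ =>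
        (lt_or_ge i n).imp (fun h => (k3 (Nat.succ_le_of_lt h) (x1 n)).2) fun h => ⟨n, h, rfl⟩
    refine ⟨a, tendsto_nhds_unique ((hf.tendsto a).comp k5) (tendsto_iff_dist_tendsto_zero.2
      (squeeze_zero (fun _ => dist_nonneg) (fun n => ?_)
        (tendsto_one_div_add_atTop_nhds_zero_nat.comp k4.tendsto_atTop)))⟩
    rw [dist_comm]
    exact (x2 (φ n) ▸ z2 (φ n)).le
  refine ⟨⋂ n, closure (f '' S n), k4, isClosed_iInter fun _ => isClosed_closure, ?_⟩
  rw [Antitone.measure_iInter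
    (fun a b h => closure_mono (image_mono (k3 h)))
    (fun _ => isClosed_closure.measurableSet.nullMeasurableSet) ⟨0, measure_ne_top _ _⟩]
  exact le_iInf fun n => (k2 n).le.trans (measure_mono subset_closure)

/-- the complement of an analytic set has a measurable subset of the same measure -/
lemma coana {Y : Type*} [MetricSpace Y] [MeasurableSpace Y] [OpensMeasurableSpace Y]
    (ν : Measure Y) [IsFiniteMeasure ν] {s : Set Y} (h : AnalyticSet s) :
    ∃ G ⊆ sᶜ, MeasurableSet G ∧ ν sᶜ ≤ ν G := by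
  refine ⟨(toMeasurable ν s)ᶜ, compl_subset_compl.2 (subset_toMeasurable ν s),
    (measurableSet_toMeasurable ν s).compl, ?_⟩
  rw [measure_compl (measurableSet_toMeasurable ν s) (measure_ne_top _ _), measure_toMeasurable]
  refine ENNReal.le_sub_of_add_le_left (measure_ne_top _ _) ?_
  have : ν s ≤ ν univ - ν sᶜ := by
    refine le_of_forall_lt_imp_le_of_dense fun c hc => ?_
    obtain ⟨K, k1, k2, k3⟩ := inner ν h hc
    refine k3.trans (ENNReal.le_sub_of_add_le_right (measure_ne_top _ _) ?_)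
    rw [← measure_add_measure_compl (μ := ν) k2.measurableSet]
    exact add_le_add_right (measure_mono (compl_subset_compl.2 k1)) _
  exact (add_le_add_left this _).trans
    (tsub_add_cancel_of_le (measure_mono (subset_univ _))).le

lemma segana {S : Set (ℝ × ℝ)} (hS : MeasurableSet S) :
    AnalyticSet {p : (ℝ × ℝ) × (ℝ × ℝ) | segment ℝ p.1 p.2 ⊆ S}ᶜ := by
  have m : MeasurableSet {q : ((ℝ × ℝ) × (ℝ × ℝ)) × ℝ | q.2 ∈ Icc (0 : ℝ) 1 ∧
      (1 - q.2) • q.1.1 + q.2 • q.1.2 ∉ S} := by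
    refine (measurableSet_Icc.preimage measurable_snd).inter (hS.compl.preimage ?_)
    exact Continuous.measurable (by fun_prop)
  have := m.analyticSet.image_of_continuous continuous_fst
  refine (congrArg AnalyticSet ?_).mp this
  ext p
  simp only [mem_image, mem_ofPred_eq, mem_compl_iff, segment_eq_image, image_subset_iff,
    not_subset, mem_preimage]
  constructor
  · rintro ⟨q, ⟨h1, h2⟩, rfl⟩
    exact ⟨q.2, h1, h2⟩
  · rintro ⟨t, h1, h2⟩
    exact ⟨(p, t), ⟨h1, h2⟩, rfl⟩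

lemma jensen {X : Type*} [MeasurableSpace X] (μ : Measure X) [IsProbabilityMeasure μ]
    {f : X → ℝ≥0∞} (hf : Measurable f) : (∫⁻ x, f x ∂μ) ^ 3 ≤ ∫⁻ x, f x ^ 3 ∂μ := by
  have hc : (3 : ℝ).HolderConjugate (3 / 2) := by
    rw [Real.holderConjugate_iff]; norm_num
  have := ENNReal.lintegral_mul_le_Lp_mul_Lq μ hc hf.aemeasurable
    (aemeasurable_const (b := (1 : ℝ≥0∞)))
  simp only [Pi.mul_apply, mul_one, ENNReal.one_rpow, lintegral_const, measure_univ] at this
  refine (pow_le_pow_left' this 3).trans (le_of_eq ?_)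
  rw [← ENNReal.rpow_natCast, ← ENNReal.rpow_mul]
  norm_num

lemma k33 {X : Type*} [MeasurableSpace X] (μ : Measure X) [IsProbabilityMeasure μ]
    {G : Set (X × X)} (hG : MeasurableSet G) :
    (μ.prod μ G) ^ 9 ≤ Measure.pi (fun _ : Fin 3 ⊕ Fin 3 => μ)
      {ω | ∀ i j, (ω (.inl i), ω (.inr j)) ∈ G} := by
  set ν := Measure.pi (fun _ : Fin 3 => μ) with hν
  have m1 : MeasurableSet {q : (Fin 3 → X) × (Fin 3 → X) | ∀ i j, (q.1 i, q.2 j) ∈ G} := by
    simp only [ofPred_forall]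
    exact MeasurableSet.iInter fun i => MeasurableSet.iInter fun j => hG.preimage (by fun_prop)
  have m2 : MeasurableSet {q : (Fin 3 → X) × X | ∀ i, (q.1 i, q.2) ∈ G} := by
    simp only [ofPred_forall]
    exact MeasurableSet.iInter fun i => hG.preimage (by fun_prop)
  have e1 := (measurePreserving_sumPiEquivProdPi (fun _ : Fin 3 ⊕ Fin 3 => μ)).measure_preimage
    m1.nullMeasurableSet
  refine le_trans ?_ e1.ge
  rw [Measure.prod_apply m1]
  have e2 (a : Fin 3 → X) : ν (Prod.mk a ⁻¹' {q : (Fin 3 → X) × (Fin 3 → X) |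
      ∀ i j, (q.1 i, q.2 j) ∈ G}) =
      μ (Prod.mk a ⁻¹' {q : (Fin 3 → X) × X | ∀ i, (q.1 i, q.2) ∈ G}) ^ 3 := by
    have : Prod.mk a ⁻¹' {q : (Fin 3 → X) × (Fin 3 → X) | ∀ i j, (q.1 i, q.2 j) ∈ G} =
        univ.pi fun _ => Prod.mk a ⁻¹' {q : (Fin 3 → X) × X | ∀ i, (q.1 i, q.2) ∈ G} := by
      ext b
      simp only [mem_preimage, mem_ofPred_eq, Set.mem_pi, mem_univ, true_imp_iff]
      exact forall_comm
    rw [this, hν, Measure.pi_pi]
    simp
  have e3 (y : X) : ν ((fun a => (a, y)) ⁻¹' {q : (Fin 3 → X) × X | ∀ i, (q.1 i, q.2) ∈ G}) =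
      μ ((fun x => (x, y)) ⁻¹' G) ^ 3 := by
    have : (fun a => (a, y)) ⁻¹' {q : (Fin 3 → X) × X | ∀ i, (q.1 i, q.2) ∈ G} =
        univ.pi fun _ => (fun x => (x, y)) ⁻¹' G := by
      ext b
      simp only [mem_preimage, mem_ofPred_eq, Set.mem_pi, mem_univ, true_imp_iff]
    rw [this, hν, Measure.pi_pi]
    simp
  show _ ≤ ∫⁻ a, ν _ ∂ν
  simp only [e2]
  refine le_trans ?_ (jensen ν (measurable_measure_prodMk_left m2))
  rw [← Measure.prod_apply m2, Measure.prod_apply_symm m2]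
  simp only [e3]
  rw [show 9 = 3 * 3 from rfl, pow_mul, Measure.prod_apply_symm hG]
  exact pow_le_pow_left' (jensen μ (measurable_measure_prodMk_right hG)) 3

lemma trip {X ι : Type*} [MeasurableSpace X] [Fintype ι] (μ : Measure X) [IsProbabilityMeasure μ]
    {B : Set ((X × X) × X)} (hB : MeasurableSet B) {θ : ℝ≥0∞}
    (h : ∀ q, μ (Prod.mk q ⁻¹' B) ≤ θ) {i j k : ι} (hi : i ≠ k) (hj : j ≠ k) :
    Measure.pi (fun _ : ι => μ) {ω | ((ω i, ω j), ω k) ∈ B} ≤ θ := by
  have I := (iIndepFun_pi (μ := fun _ : ι => μ) (X := fun _ => id)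
    fun _ => aemeasurable_id).indepFun_prodMk (fun i => by fun_prop) i j k hi hj
  have m1 : Measurable fun ω : ι → X => (ω i, ω j) := by fun_prop
  replace I := (indepFun_iff_map_prod_eq_prod_map_map m1.aemeasurable
    (measurable_pi_apply k).aemeasurable).1 I
  have e := Measure.map_apply (μ := Measure.pi (fun _ : ι => μ))
    (m1.prodMk (measurable_pi_apply k)) hB
  refine e.ge.trans ?_
  erw [I, (measurePreserving_eval (fun _ : ι => μ) k).map_eq, Measure.prod_apply hB]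
  refine (lintegral_mono h).trans ?_
  have := Measure.isProbabilityMeasure_map (μ := Measure.pi (fun _ : ι => μ)) m1.aemeasurable
  simp

lemma six {X : Type*} [MeasurableSpace X] (μ : Measure X) [IsProbabilityMeasure μ]
    {G : Set (X × X)} (hG : MeasurableSet G)
    {B : Set ((X × X) × X)} (hB : MeasurableSet B) {θ : ℝ≥0∞}
    (h : ∀ q, μ (Prod.mk q ⁻¹' B) ≤ θ) (hθ : 216 * θ < (μ.prod μ G) ^ 9) :
    ∃ ω : Fin 3 ⊕ Fin 3 → X, (∀ i j, (ω (.inl i), ω (.inr j)) ∈ G) ∧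
      ∀ i j k, i ≠ k → j ≠ k → ((ω i, ω j), ω k) ∉ B := by
  by_contra! H
  refine (hθ.trans_le (k33 μ hG)).not_ge ?_
  let I := Fin 3 ⊕ Fin 3
  have : {ω : I → X | ∀ i j, (ω (.inl i), ω (.inr j)) ∈ G} ⊆ ⋃ t : I × I × I,
      {ω | t.1 ≠ t.2.2 ∧ t.2.1 ≠ t.2.2 ∧ ((ω t.1, ω t.2.1), ω t.2.2) ∈ B} := fun ω hω => by
    obtain ⟨i, j, k, h⟩ := H ω hω
    exact mem_iUnion.2 ⟨(i, j, k), h⟩
  refine (measure_mono this).trans ((measure_iUnion_fintype_le _ _).trans ?_)
  refine (Finset.sum_le_card_nsmul _ _ θ fun t _ => ?_).trans (by simp [I])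
  by_cases k : t.1 ≠ t.2.2 ∧ t.2.1 ≠ t.2.2
  · exact (measure_mono fun ω hω => hω.2.2).trans (trip μ hB h k.1 k.2)
  · rw [show {ω : I → X | t.1 ≠ t.2.2 ∧ t.2.1 ≠ t.2.2 ∧ ((ω t.1, ω t.2.1), ω t.2.2) ∈ B} = ∅ from
      eq_empty_of_forall_notMem fun ω hω => k ⟨hω.1, hω.2.1⟩]
    simp

end Pool.Agent.H.MP_e9a110_co
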