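import Pool.Agent.H.MP_e9a110_co.A
set_option autoImplicit false
open MeasureTheory Set
open scoped ENNReal
namespace Pool.Agent.H.MP_e9a110_co

def dt (x y z : ℝ × ℝ) : ℝ := (y.1 - x.1) * (z.2 - x.2) - (z.1 - x.1) * (y.2 - x.2)

noncomputable def hh (S : Set (ℝ × ℝ)) (t : ℝ) : ℝ≥0∞ := volume (Prod.mk t ⁻¹' S)

def E1 (S : Set (ℝ × ℝ)) (τ : ℝ) : Set (((ℝ × ℝ) × (ℝ × ℝ)) × (ℝ × ℝ)) :=
  {q | hh S q.2.1 ≤ hh S q.1.2.1 ∧
    hh S q.1.2.1 * ENNReal.ofReal |q.1.1.1 - q.2.1| ≤ ENNReal.ofReal τ}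

def E2 (S : Set (ℝ × ℝ)) (τ η : ℝ) : Set (((ℝ × ℝ) × (ℝ × ℝ)) × (ℝ × ℝ)) :=
  {q | ENNReal.ofReal τ < hh S q.2.1 * ENNReal.ofReal |q.1.1.1 - q.1.2.1| ∧
    |dt q.1.1 q.1.2 q.2| ≤ η}

lemma mh {S : Set (ℝ × ℝ)} (hS : MeasurableSet S) : Measurable (hh S) :=
  measurable_measure_prodMk_left hS

lemma m1 {S : Set (ℝ × ℝ)} (hS : MeasurableSet S) (τ : ℝ) : MeasurableSet (E1 S τ) := by
  have := mh hS
  unfold E1
  rw [ofPred_and]
  refine MeasurableSet.inter (measurableSet_le ?_ ?_) (measurableSet_le ?_ ?_) <;> fun_prop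

lemma m2 {S : Set (ℝ × ℝ)} (hS : MeasurableSet S) (τ η : ℝ) : MeasurableSet (E2 S τ η) := by
  have := mh hS
  unfold E2 dt
  rw [ofPred_and]
  refine MeasurableSet.inter (measurableSet_lt ?_ ?_) (measurableSet_le ?_ ?_) <;> fun_prop

lemma ball1 (H : ℝ≥0∞) (a τ : ℝ) (hτ : 0 ≤ τ) :
    H * volume {t : ℝ | H * ENNReal.ofReal |a - t| ≤ ENNReal.ofReal τ} ≤ ENNReal.ofReal (2 * τ) := by
  rcases eq_or_ne H ⊤ with rfl | h
  · have : {t : ℝ | ⊤ * ENNReal.ofReal |a - t| ≤ ENNReal.ofReal τ} ⊆ {a} := fun t ht => by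
      by_contra k
      have : ENNReal.ofReal |a - t| ≠ 0 := by
        simpa [sub_eq_zero] using fun e => k (Eq.symm e)
      simp [ENNReal.top_mul this] at ht
    simp [measure_mono_null this (measure_singleton a)]
  rcases eq_or_ne H 0 with rfl | h0
  · simp
  obtain ⟨r, hr, rfl⟩ : ∃ r : ℝ, 0 < r ∧ H = ENNReal.ofReal r :=
    ⟨H.toReal, ENNReal.toReal_pos h0 h, (ENNReal.ofReal_toReal h).symm⟩
  have : {t : ℝ | ENNReal.ofReal r * ENNReal.ofReal |a - t| ≤ ENNReal.ofReal τ} ⊆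
      Metric.closedBall a (τ / r) := fun t ht => by
    simp only [mem_ofPred_eq] at ht
    rw [← ENNReal.ofReal_mul hr.le, ENNReal.ofReal_le_ofReal_iff hτ] at ht
    rw [Metric.mem_closedBall, dist_comm, Real.dist_eq, le_div_iff₀ hr]
    linarith
  refine (mul_le_mul_right (measure_mono this) _).trans (le_of_eq ?_)
  rw [Real.volume_closedBall, ← ENNReal.ofReal_mul hr.le]
  congr 1
  field_simp

lemma f1 {S : Set (ℝ × ℝ)} (hS : MeasurableSet S) {τ : ℝ} (hτ : 0 ≤ τ)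
    (q : (ℝ × ℝ) × (ℝ × ℝ)) :
    volume (Prod.mk q ⁻¹' E1 S τ ∩ S) ≤ ENNReal.ofReal (2 * τ) := by
  have m := ((m1 hS τ).preimage (measurable_prodMk_left (x := q))).inter hS
  rw [Measure.volume_eq_prod, Measure.prod_apply m]
  refine le_trans ?_ (ball1 (hh S q.2.1) q.1.1 τ hτ)
  have m' : MeasurableSet {t : ℝ | hh S q.2.1 * ENNReal.ofReal |q.1.1 - t| ≤ ENNReal.ofReal τ} :=
    measurableSet_le (by fun_prop) (by fun_prop)
  rw [← lintegral_indicator_const m']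
  refine lintegral_mono fun t => ?_
  by_cases k : hh S t ≤ hh S q.2.1 ∧ hh S q.2.1 * ENNReal.ofReal |q.1.1 - t| ≤ ENNReal.ofReal τ
  · rw [indicator_of_mem (by exact k.2)]
    exact (measure_mono fun s hs => hs.2).trans k.1
  · refine le_trans (le_of_eq ?_) zero_le
    rw [eq_empty_of_forall_notMem (s := Prod.mk t ⁻¹' _) fun s hs => k hs.1, measure_empty]

lemma f2 {S : Set (ℝ × ℝ)} (hS : MeasurableSet S) {τ η : ℝ} (hτ : 0 < τ) (hη : 0 ≤ η)
    (q : (ℝ × ℝ) × (ℝ × ℝ)) :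
    volume (Prod.mk q ⁻¹' E2 S τ η) ≤ ENNReal.ofReal (2 * η / τ) * volume S := by
  have m := (m2 hS τ η).preimage (measurable_prodMk_left (x := q))
  rcases eq_or_ne (q.1.1 - q.2.1) 0 with h | h
  · rw [eq_empty_of_forall_notMem (s := Prod.mk q ⁻¹' _) fun s hs => by
      simpa [h] using hs.1]
    simp
  have hd : 0 < |q.1.1 - q.2.1| := abs_pos.2 h
  set d := |q.1.1 - q.2.1| with hd'
  have mh' := mh hS
  have m' : MeasurableSet {t : ℝ | ENNReal.ofReal (τ / d) ≤ hh S t} :=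
    measurableSet_le (by fun_prop) (by fun_prop)
  rw [Measure.volume_eq_prod, Measure.prod_apply m, Measure.prod_apply hS]
  have mk := mul_meas_ge_le_lintegral (μ := volume) mh' (ENNReal.ofReal (τ / d))
  refine le_trans ?_ (mul_le_mul_right mk _)
  rw [← mul_assoc, ← ENNReal.ofReal_mul (by positivity), ← lintegral_indicator_const m']
  refine lintegral_mono fun t => ?_
  by_cases k : ENNReal.ofReal τ < hh S t * ENNReal.ofReal d
  · have : ENNReal.ofReal (τ / d) ≤ hh S t := by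
      rw [ENNReal.ofReal_div_of_pos hd]
      exact ENNReal.div_le_of_le_mul k.le
    rw [indicator_of_mem (by exact this)]
    have s : Prod.mk t ⁻¹' (Prod.mk q ⁻¹' E2 S τ η) ⊆ Metric.closedBall
        (q.1.2 + (t - q.1.1) * (q.2.2 - q.1.2) / (q.2.1 - q.1.1)) (η / d) := fun s hs => by
      have h2 : |dt q.1 q.2 (t, s)| ≤ η := hs.2
      have h3 : q.2.1 - q.1.1 ≠ 0 := fun e => h (by linarith)
      rw [Metric.mem_closedBall, Real.dist_eq, le_div_iff₀ hd, hd', abs_sub_comm q.1.1, ← abs_mul]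
      refine le_trans (le_of_eq ?_) h2
      unfold dt
      congr 1
      field_simp
      ring
    refine (measure_mono s).trans (le_of_eq ?_)
    rw [Real.volume_closedBall]
    congr 1
    field_simp
  · refine le_trans (le_of_eq ?_) zero_le
    rw [eq_empty_of_forall_notMem (s := Prod.mk t ⁻¹' _) fun s hs => k hs.1, measure_empty]

lemma big {S : Set (ℝ × ℝ)} {τ η : ℝ} {ι : Type*} {ω : ι → ℝ × ℝ}
    (h : ∀ i j k, i ≠ k → j ≠ k → ((ω i, ω j), ω k) ∉ E1 S τ ∪ E2 S τ η) {i j k : ι}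
    (h1 : i ≠ j) (h2 : i ≠ k) (h3 : j ≠ k) : η < |dt (ω i) (ω j) (ω k)| := by
  wlog w : hh S (ω j).1 ≤ hh S (ω k).1 generalizing j k
  · have := this h2 h1 h3.symm (not_le.1 w).le
    rwa [show dt (ω i) (ω k) (ω j) = - dt (ω i) (ω j) (ω k) by unfold dt; ring, abs_neg] at this
  by_contra! c
  refine h i j k h2 h3 (Or.inr ⟨?_, c⟩)
  by_contra! c'
  exact h i k j h1 h3.symm (Or.inl ⟨w, c'⟩)

end Pool.Agent.H.MP_e9a110_co
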