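import Pool.Agent.H.MP_e9a110_co.B
set_option autoImplicit false
open MeasureTheory Set
open scoped ENNReal
namespace Pool.Agent.H.MP_e9a110_co

def Pb (d b1 b2 b3 : Bool) : Bool :=
  (b1 != d && b2 != d) || (b1 != d && b3 != d) || (b2 != d && b3 != d)

lemma bl : ∀ d b1 b2 b3 g1 g2 g3 c1 c2 c3 : Bool, ¬(b1 ≠ d ∧ b2 ≠ d ∧ b3 ≠ d) →
    ¬(g1 ≠ d ∧ g2 ≠ d ∧ g3 ≠ d) → ¬(b1 ≠ c1 ∧ b2 ≠ c2 ∧ b3 ≠ c3) →
    ¬(b1 = c1 ∧ b2 = c2 ∧ b3 = c3) → ¬(g1 ≠ c1 ∧ g2 ≠ c2 ∧ g3 ≠ c3) →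
    ¬(g1 = c1 ∧ g2 = c2 ∧ g3 = c3) → ¬(c2 = c3 ∧ b1 = g1) → ¬(c3 = c1 ∧ b2 = g2) →
    ¬(c1 = c2 ∧ b3 = g3) → Pb d b1 b2 b3 ≠ Pb d g1 g2 g3 := by
  intro d b1 b2 b3 g1 g2 g3
  cases d <;> cases b1 <;> cases b2 <;> cases b3 <;> cases g1 <;> cases g2 <;> cases g3 <;>
    simp [Pb]

open Classical in
noncomputable def sg (x : ℝ) : Bool := decide (x < 0)

lemma ms {x y : ℝ} (hx : x ≠ 0) (hy : y ≠ 0) :
    (sg x = sg y → 0 < x * y) ∧ (sg x ≠ sg y → x * y < 0) := by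
  unfold sg
  rcases hx.lt_or_gt with h | h <;> rcases hy.lt_or_gt with k | k <;>
    simp [h, k, h.not_gt, k.not_gt, mul_pos_of_neg_of_neg, mul_neg_of_neg_of_pos,
      mul_neg_of_pos_of_neg]

def Q (a a' b b' : ℝ × ℝ) : Prop := 0 < dt b b' a * dt b b' a' ∧ 0 < dt a a' b * dt a a' b'

noncomputable def P (a1 a2 a3 b : ℝ × ℝ) : Bool :=
  Pb (sg (dt a1 a2 a3)) (sg (dt a2 a3 b)) (sg (dt a3 a1 b)) (sg (dt a1 a2 b))

lemma two {a1 a2 a3 b b' : ℝ × ℝ} (d : dt a1 a2 a3 ≠ 0) (b1 : dt a2 a3 b ≠ 0)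
    (b2 : dt a3 a1 b ≠ 0) (b3 : dt a1 a2 b ≠ 0) (g1 : dt a2 a3 b' ≠ 0)
    (g2 : dt a3 a1 b' ≠ 0) (g3 : dt a1 a2 b' ≠ 0) (c1 : dt b b' a1 ≠ 0) (c2 : dt b b' a2 ≠ 0)
    (c3 : dt b b' a3 ≠ 0) (h1 : ¬Q a2 a3 b b') (h2 : ¬Q a3 a1 b b') (h3 : ¬Q a1 a2 b b') :
    P a1 a2 a3 b ≠ P a1 a2 a3 b' := by
  have e1 (z) : dt a2 a3 z * dt a1 a2 a3 + dt a3 a1 z * dt a1 a2 a3 + dt a1 a2 z * dt a1 a2 a3 =
      dt a1 a2 a3 ^ 2 := by unfold dt; ring
  have e2 : dt a2 a3 b * dt b b' a1 + dt a3 a1 b * dt b b' a2 + dt a1 a2 b * dt b b' a3 = 0 := by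
    unfold dt; ring
  have e3 : dt a2 a3 b' * dt b b' a1 + dt a3 a1 b' * dt b b' a2 + dt a1 a2 b' * dt b b' a3 = 0 := by
    unfold dt; ring
  have p := sq_nonneg (dt a1 a2 a3)
  refine bl _ _ _ _ _ _ _ (sg (dt b b' a1)) (sg (dt b b' a2)) (sg (dt b b' a3))
    (fun k => ?_) (fun k => ?_) (fun k => ?_) (fun k => ?_) (fun k => ?_) (fun k => ?_)
    (fun k => h1 ⟨(ms c2 c3).1 k.1, (ms b1 g1).1 k.2⟩)
    (fun k => h2 ⟨(ms c3 c1).1 k.1, (ms b2 g2).1 k.2⟩)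
    (fun k => h3 ⟨(ms c1 c2).1 k.1, (ms b3 g3).1 k.2⟩)
  · linarith [(ms b1 d).2 k.1, (ms b2 d).2 k.2.1, (ms b3 d).2 k.2.2, e1 b]
  · linarith [(ms g1 d).2 k.1, (ms g2 d).2 k.2.1, (ms g3 d).2 k.2.2, e1 b']
  · linarith [(ms b1 c1).2 k.1, (ms b2 c2).2 k.2.1, (ms b3 c3).2 k.2.2]
  · linarith [(ms b1 c1).1 k.1, (ms b2 c2).1 k.2.1, (ms b3 c3).1 k.2.2]
  · linarith [(ms g1 c1).2 k.1, (ms g2 c2).2 k.2.1, (ms g3 c3).2 k.2.2]
  · linarith [(ms g1 c1).1 k.1, (ms g2 c2).1 k.2.1, (ms g3 c3).1 k.2.2]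

lemma exQ {ω : Fin 3 ⊕ Fin 3 → ℝ × ℝ}
    (h : ∀ i j k, i ≠ j → i ≠ k → j ≠ k → dt (ω i) (ω j) (ω k) ≠ 0) :
    ∃ i i' j j', i ≠ i' ∧ j ≠ j' ∧ Q (ω (.inl i)) (ω (.inl i')) (ω (.inr j)) (ω (.inr j')) := by
  by_contra! H
  have t (j j' : Fin 3) (e : j ≠ j') : P (ω (.inl 0)) (ω (.inl 1)) (ω (.inl 2)) (ω (.inr j)) ≠
      P (ω (.inl 0)) (ω (.inl 1)) (ω (.inl 2)) (ω (.inr j')) := by
    refine two ?_ ?_ ?_ ?_ ?_ ?_ ?_ ?_ ?_ ?_ (H _ _ _ _ (by decide) e) (H _ _ _ _ (by decide) e)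
      (H _ _ _ _ (by decide) e) <;> refine h _ _ _ ?_ ?_ ?_ <;> simp [e]
  have t1 := t 0 1 (by decide)
  have t2 := t 0 2 (by decide)
  have t3 := t 1 2 (by decide)
  revert t1 t2 t3
  generalize P _ _ _ (ω (.inr 0)) = x, P _ _ _ (ω (.inr 1)) = y, P _ _ _ (ω (.inr 2)) = z
  revert x y z
  decide

lemma tri {S : Set (ℝ × ℝ)} {p q r : ℝ × ℝ} (h : dt p q r ≠ 0) (h1 : segment ℝ p q ⊆ S)
    (h2 : segment ℝ p r ⊆ S) (h3 : segment ℝ q r ⊆ S) :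
    ∃ C : Set (ℝ × ℝ), Convex ℝ C ∧ Bornology.IsBounded C ∧
      ENNReal.ofReal (|dt p q r| / 4) ≤ volume C ∧ frontier C ⊆ S := by
  let L : (ℝ × ℝ) →ₗ[ℝ] (ℝ × ℝ) := Matrix.toLin (Module.Basis.finTwoProd ℝ)
    (Module.Basis.finTwoProd ℝ) !![q.1 - p.1, r.1 - p.1; q.2 - p.2, r.2 - p.2]
  have hd : LinearMap.det L = dt p q r := by
    rw [LinearMap.det_toLin, Matrix.det_fin_two_of]; rfl
  have hL (w : ℝ × ℝ) : L w = w.1 • (q - p) + w.2 • (r - p) := by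
    rw [Matrix.toLin_finTwoProd_apply]
    ext <;> simp <;> ring
  let F := ((L.equivOfDetNeZero (hd ▸ h)).toContinuousLinearEquiv.toHomeomorph).trans
    (Homeomorph.addLeft p)
  have hF (w : ℝ × ℝ) : F w = p + L w := rfl
  let D : Set (ℝ × ℝ) := {w | 0 ≤ w.1 ∧ 0 ≤ w.2 ∧ w.1 + w.2 ≤ 1}
  have cD : Convex ℝ D := by
    rintro x ⟨x1, x2, x3⟩ y ⟨y1, y2, y3⟩ a b ha hb e
    refine ⟨?_, ?_, ?_⟩ <;> simp only [Prod.fst_add, Prod.snd_add, Prod.smul_fst, Prod.smul_snd,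
      smul_eq_mul]
    · positivity
    · positivity
    · nlinarith [mul_le_mul_of_nonneg_left x3 ha, mul_le_mul_of_nonneg_left y3 hb]
  have clD : IsClosed D := by
    simp only [D, ofPred_and]
    refine IsClosed.inter (isClosed_le ?_ ?_) (IsClosed.inter (isClosed_le ?_ ?_)
      (isClosed_le ?_ ?_)) <;> fun_prop
  have kD : IsCompact D := (isCompact_Icc (a := ((0, 0) : ℝ × ℝ)) (b := (1, 1))).of_isClosed_subset
    clD fun w ⟨w1, w2, w3⟩ => ⟨⟨w1, w2⟩, ⟨by simp only; linarith, by simp only; linarith⟩⟩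
  have eF : F '' D = (fun z => p + z) '' (L '' D) := by rw [image_image]; rfl
  refine ⟨F '' D, ?_, (kD.image F.continuous).isBounded, ?_, ?_⟩
  · rw [eF]
    exact (cD.linear_image L).translate p
  · rw [eF, image_add_left, measure_preimage_add, Measure.addHaar_image_linearMap, hd,
      div_eq_mul_one_div, ENNReal.ofReal_mul (abs_nonneg _)]
    refine mul_le_mul_right ?_ _
    have : Icc (0 : ℝ) (1 / 2) ×ˢ Icc (0 : ℝ) (1 / 2) ⊆ D := fun w ⟨⟨w1, w2⟩, w3, w4⟩ =>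
      ⟨w1, w3, by linarith⟩
    refine le_trans (le_of_eq ?_) (measure_mono this)
    rw [Measure.volume_eq_prod, Measure.prod_prod, Real.volume_Icc,
      ← ENNReal.ofReal_mul (by norm_num)]
    norm_num
  · rw [← F.image_frontier]
    rintro _ ⟨w, hw, rfl⟩
    have w0 : w ∈ D := clD.frontier_subset hw
    have oD : IsOpen {w : ℝ × ℝ | 0 < w.1 ∧ 0 < w.2 ∧ w.1 + w.2 < 1} := by
      simp only [ofPred_and]
      refine IsOpen.inter (isOpen_lt ?_ ?_) (IsOpen.inter (isOpen_lt ?_ ?_)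
        (isOpen_lt ?_ ?_)) <;> fun_prop
    have w1 : ¬(0 < w.1 ∧ 0 < w.2 ∧ w.1 + w.2 < 1) := fun k => hw.2
      (interior_maximal (s := D) (fun z hz => ⟨hz.1.le, hz.2.1.le, hz.2.2.le⟩) oD k)
    obtain ⟨a1, a2, a3⟩ := w0
    rw [hF, hL]
    rcases a1.eq_or_lt with b1 | b1
    · refine h2 ⟨1 - w.2, w.2, by linarith, a2, by ring, ?_⟩
      rw [← b1]; module
    rcases a2.eq_or_lt with b2 | b2
    · refine h1 ⟨1 - w.1, w.1, by linarith, a1, by ring, ?_⟩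
      rw [← b2]; module
    have b3 : w.2 = 1 - w.1 := by
      by_contra k
      exact w1 ⟨b1, b2, lt_of_le_of_ne a3 fun e => k (by linarith)⟩
    refine h3 ⟨w.1, w.2, a1, a2, by linarith, ?_⟩
    rw [b3]; module

lemma quad {S : Set (ℝ × ℝ)} {a a' b b' : ℝ × ℝ} {η : ℝ} (hη : 0 ≤ η) (h : Q a a' b b')
    (u1 : η < |dt a a' b|) (u2 : η < |dt a a' b'|) (v1 : η < |dt b b' a|)
    (v2 : η < |dt b b' a'|)
    (h1 : segment ℝ a b ⊆ S) (h2 : segment ℝ a b' ⊆ S) (h3 : segment ℝ a' b ⊆ S)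
    (h4 : segment ℝ a' b' ⊆ S) :
    ∃ C : Set (ℝ × ℝ), Convex ℝ C ∧ Bornology.IsBounded C ∧
      ENNReal.ofReal (η / 8) ≤ volume C ∧ frontier C ⊆ S := by
  have sw (x y z : ℝ × ℝ) : dt y x z = - dt x y z := by unfold dt; ring
  wlog w : 0 < dt a a' b generalizing a a'
  · refine this ⟨by rw [mul_comm]; exact h.1, by rw [sw a a', sw a a', neg_mul_neg]; exact h.2⟩
      (by rwa [sw, abs_neg]) (by rwa [sw, abs_neg]) v2 v1 h3 h4 h1 h2 ?_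
    rw [sw, neg_pos]
    exact lt_of_le_of_ne (not_lt.1 w) (abs_pos.1 (hη.trans_lt u1))
  wlog w' : dt b b' a < 0 generalizing b b'
  · refine this ⟨by rw [sw b b', sw b b', neg_mul_neg]; exact h.1, by rw [mul_comm]; exact h.2⟩
      u2 u1 (by rwa [sw, abs_neg]) (by rwa [sw, abs_neg]) h2 h1 h4 h3
      ((mul_pos_iff_of_pos_left w).1 h.2) ?_
    rw [sw, neg_lt_zero]
    exact lt_of_le_of_ne (not_lt.1 w') (abs_pos.1 (hη.trans_lt v1)).symm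
  have p1 : 0 < dt a a' b' := (mul_pos_iff_of_pos_left w).1 h.2
  have p2 : dt b b' a' < 0 := by
    by_contra! k
    nlinarith [h.1]
  rw [abs_of_pos p1] at u2
  rw [abs_of_neg w'] at v1
  set u := dt a a' b with hu
  set u' := dt a a' b' with hu'
  set v := dt b b' a with hv
  set v' := dt b b' a' with hv'
  have e : u - v' = u' - v := by simp only [hu, hu', hv, hv', dt]; ring
  have W : 0 < u - v' := by linarith
  obtain ⟨s, hs⟩ : ∃ s, s = u / (u - v') := ⟨_, rfl⟩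
  obtain ⟨t, ht⟩ : ∃ t, t = u' / (u - v') := ⟨_, rfl⟩
  have s0 : 0 < s := hs ▸ div_pos w W
  have s1 : s < 1 := hs ▸ (div_lt_one W).2 (by linarith)
  have t0 : 0 < t := ht ▸ div_pos p1 W
  have t1 : t < 1 := ht ▸ (div_lt_one W).2 (by linarith)
  have es : s * (u - v') = u := by rw [hs]; field_simp
  have et : t * (u - v') = u' := by rw [ht]; field_simp
  have ep : (1 - s) • a + s • b' = (1 - t) • a' + t • b := by
    ext <;> simp only [Prod.fst_add, Prod.snd_add, Prod.smul_fst, Prod.smul_snd, smul_eq_mul] <;>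
      refine mul_right_cancel₀ W.ne' ?_
    · have : (u - v') * a.1 + u * (b'.1 - a.1) = (u - v') * a'.1 + u' * (b.1 - a'.1) := by
        simp only [hu, hu', hv', dt]; ring
      linear_combination this + (b'.1 - a.1) * es - (b.1 - a'.1) * et
    · have : (u - v') * a.2 + u * (b'.2 - a.2) = (u - v') * a'.2 + u' * (b.2 - a'.2) := by
        simp only [hu, hu', hv', dt]; ring
      linear_combination this + (b'.2 - a.2) * es - (b.2 - a'.2) * et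
  set p := (1 - s) • a + s • b' with hp
  have q1 : p ∈ segment ℝ a b' := ⟨1 - s, s, by linarith, s0.le, by ring, rfl⟩
  have q2 : p ∈ segment ℝ a' b := ⟨1 - t, t, by linarith, t0.le, by ring, ep.symm⟩
  have c1 := convex_segment (𝕜 := ℝ) a b'
  have c2 := convex_segment (𝕜 := ℝ) a' b
  have d1 : dt a b p = s * v := by simp [hp, hv, dt]; ring
  have d2 : dt a' b' p = (1 - s) * u' := by simp [hp, hu', dt]; ring
  rcases le_total s (1 / 2) with k | k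
  · have : η / 2 < dt a' b' p := by rw [d2]; nlinarith
    obtain ⟨C, k1, k2, k3, k4⟩ := tri (p := a') (q := b') (r := p) (by linarith) h4
      ((c2.segment_subset (left_mem_segment _ _ _) q2).trans h3)
      ((c1.segment_subset (right_mem_segment _ _ _) q1).trans h2)
    exact ⟨C, k1, k2, (ENNReal.ofReal_le_ofReal (by linarith [le_abs_self (dt a' b' p)])).trans k3,
      k4⟩
  · have : dt a b p < - (η / 2) := by rw [d1]; nlinarith
    obtain ⟨C, k1, k2, k3, k4⟩ := tri (p := a) (q := b) (r := p) (by linarith) h1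
      ((c1.segment_subset (left_mem_segment _ _ _) q1).trans h2)
      ((c2.segment_subset (right_mem_segment _ _ _) q2).trans h3)
    exact ⟨C, k1, k2, (ENNReal.ofReal_le_ofReal (by linarith [neg_le_abs (dt a b p)])).trans k3,
      k4⟩

end Pool.Agent.H.MP_e9a110_co
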