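import Pool.Agent.H.MP_e9a110_co.C
set_option autoImplicit false
open MeasureTheory Set
open scoped ENNReal
namespace Pool.Agent.H.MP_e9a110_co

theorem main : ∀ ε : ℝ, 0 < ε → ∃ δ : ℝ, 0 < δ ∧
      ∀ S : Set (ℝ × ℝ), MeasurableSet S → 0 < MeasureTheory.volume S →
        MeasureTheory.volume S < ⊤ →
        ENNReal.ofReal ε * (MeasureTheory.volume S) ^ 2 ≤
          MeasureTheory.volume {p : (ℝ × ℝ) × (ℝ × ℝ) | segment ℝ p.1 p.2 ⊆ S} →
        ∃ C : Set (ℝ × ℝ), Convex ℝ C ∧ Bornology.IsBounded C ∧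
          ENNReal.ofReal δ * MeasureTheory.volume S ≤ MeasureTheory.volume C ∧
          frontier C ⊆ S := by
  intro ε hε
  obtain ⟨θ, hθ⟩ : ∃ θ : ℝ, θ = ε ^ 9 / 1000 := ⟨_, rfl⟩
  have θ0 : 0 < θ := by rw [hθ]; positivity
  refine ⟨θ ^ 2 / 8, by positivity, fun S hS h0 h1 h => ?_⟩
  obtain ⟨m, m0, hm⟩ : ∃ m : ℝ, 0 < m ∧ volume S = ENNReal.ofReal m :=
    ⟨(volume S).toReal, ENNReal.toReal_pos h0.ne' h1.ne, (ENNReal.ofReal_toReal h1.ne).symm⟩
  let μ : Measure (ℝ × ℝ) := (volume S)⁻¹ • volume.restrict S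
  have : IsProbabilityMeasure μ := ⟨by
    simp only [μ, Measure.smul_apply, Measure.restrict_apply_univ, smul_eq_mul]
    exact ENNReal.inv_mul_cancel h0.ne' h1.ne⟩
  obtain ⟨G, g1, g2, g3⟩ := coana (μ.prod μ) (segana hS)
  rw [compl_compl] at g1 g3
  have g4 : ENNReal.ofReal ε ≤ μ.prod μ G := by
    refine le_trans ?_ g3
    have : Fact (volume S < ⊤) := ⟨h1⟩
    have hs : {p : (ℝ × ℝ) × (ℝ × ℝ) | segment ℝ p.1 p.2 ⊆ S} ⊆ S ×ˢ S := fun p hp =>
      ⟨hp (left_mem_segment _ _ _), hp (right_mem_segment _ _ _)⟩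
    simp only [μ]
    rw [Measure.prod_smul_left, Measure.prod_smul_right, Measure.prod_restrict,
      Measure.smul_apply, Measure.smul_apply, Measure.restrict_apply' (hS.prod hS),
      inter_eq_self_of_subset_left hs, smul_eq_mul, smul_eq_mul]
    refine le_trans (le_of_eq ?_) (mul_le_mul_right (mul_le_mul_right h _) _)
    have := ENNReal.inv_mul_cancel h0.ne' h1.ne
    calc _ = ENNReal.ofReal ε * ((volume S)⁻¹ * volume S) * ((volume S)⁻¹ * volume S) := by
          rw [this, mul_one, mul_one]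
      _ = _ := by ring
  have fb (q : (ℝ × ℝ) × (ℝ × ℝ)) : μ (Prod.mk q ⁻¹' (E1 S (θ * m) ∪ E2 S (θ * m) (θ ^ 2 * m))) ≤
      ENNReal.ofReal (4 * θ) := by
    simp only [μ, Measure.smul_apply, smul_eq_mul]
    rw [Measure.restrict_apply' hS, preimage_union, union_inter_distrib_right]
    have a1 := f1 hS (τ := θ * m) (by positivity) q
    have a2 := (measure_mono (inter_subset_left (t := S))).trans
      (f2 hS (τ := θ * m) (η := θ ^ 2 * m) (by positivity) (by positivity) q)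
    refine (mul_le_mul_right ((measure_union_le _ _).trans (add_le_add a1 a2)) _).trans
      (le_of_eq ?_)
    rw [hm, ← ENNReal.ofReal_inv_of_pos m0, ← ENNReal.ofReal_mul (by positivity),
      ← ENNReal.ofReal_add (by positivity) (by positivity), ← ENNReal.ofReal_mul (by positivity)]
    congr 1
    field_simp
    ring
  obtain ⟨ω, o1, o2⟩ := six μ g2 ((m1 hS _).union (m2 hS _ _)) fb (by
    refine lt_of_lt_of_le ?_ (pow_le_pow_left' g4 9)
    rw [← ENNReal.ofReal_pow hε.le, show (216 : ℝ≥0∞) = ENNReal.ofReal 216 by simp,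
      ← ENNReal.ofReal_mul (by norm_num), ENNReal.ofReal_lt_ofReal_iff (by positivity)]
    linarith [pow_pos hε 9])
  have η0 : 0 ≤ θ ^ 2 * m := by positivity
  obtain ⟨i, i', j, j', e1, e2, hq⟩ := exQ (ω := ω) fun i j k a b c =>
    abs_pos.1 (η0.trans_lt (big o2 a b c))
  obtain ⟨C, c1, c2, c3, c4⟩ := quad (S := S) η0 hq (big o2 (by simpa) (by simp) (by simp))
    (big o2 (by simpa) (by simp) (by simp)) (big o2 (by simpa) (by simp) (by simp))
    (big o2 (by simpa) (by simp) (by simp)) (g1 (o1 i j)) (g1 (o1 i j')) (g1 (o1 i' j))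
    (g1 (o1 i' j'))
  refine ⟨C, c1, c2, le_trans (le_of_eq ?_) c3, c4⟩
  rw [hm, ← ENNReal.ofReal_mul (by positivity)]
  congr 1
  ring

end Pool.Agent.H.MP_e9a110_co
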