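import Pool.Agent.H.MP_e9a110_co.C
set_option autoImplicit false
open MeasureTheory Set
open scoped ENNReal
namespace Pool.Agent.H.MP_e9a110_co

lemma tri' {S : Set (ℝ × ℝ)} {p q r : ℝ × ℝ} (h : dt p q r ≠ 0) (h1 : segment ℝ p q ⊆ S)
    (h2 : segment ℝ p r ⊆ S) (h3 : segment ℝ q r ⊆ S) :
    ¬Collinear ℝ {p, q, r} ∧ ENNReal.ofReal (|dt p q r| / 4) ≤ volume (convexHull ℝ {p, q, r}) ∧
      frontier (convexHull ℝ {p, q, r}) ⊆ S := by
  let L : (ℝ × ℝ) →ₗ[ℝ] (ℝ × ℝ) := Matrix.toLin (Module.Basis.finTwoProd ℝ)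
    (Module.Basis.finTwoProd ℝ) !![q.1 - p.1, r.1 - p.1; q.2 - p.2, r.2 - p.2]
  have hd : LinearMap.det L = dt p q r := by
    rw [LinearMap.det_toLin, Matrix.det_fin_two_of]; rfl
  have hL (w : ℝ × ℝ) : L w = w.1 • (q - p) + w.2 • (r - p) := by
    rw [Matrix.toLin_finTwoProd_apply]
    ext <;> simp <;> ring
  let F := ((L.equivOfDetNeZero (hd ▸ h)).toContinuousLinearEquiv.toHomeomorph).trans
    (Homeomorph.addLeft p)
  have hF (w : ℝ × ℝ) : F w = p + L w := rfl
  let D : Set (ℝ × ℝ) := {w | 0 ≤ w.1 ∧ 0 ≤ w.2 ∧ w.1 + w.2 ≤ 1}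
  have cD : Convex ℝ D := by
    rintro x ⟨x1, x2, x3⟩ y ⟨y1, y2, y3⟩ a b ha hb e
    refine ⟨?_, ?_, ?_⟩ <;> simp only [Prod.fst_add, Prod.snd_add, Prod.smul_fst, Prod.smul_snd,
      smul_eq_mul]
    · positivity
    · positivity
    · nlinarith [mul_le_mul_of_nonneg_left x3 ha, mul_le_mul_of_nonneg_left y3 hb]
  have clD : IsClosed D := by
    simp only [D, ofPred_and]
    refine IsClosed.inter (isClosed_le ?_ ?_) (IsClosed.inter (isClosed_le ?_ ?_)
      (isClosed_le ?_ ?_)) <;> fun_prop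
  have kD : IsCompact D := (isCompact_Icc (a := ((0, 0) : ℝ × ℝ)) (b := (1, 1))).of_isClosed_subset
    clD fun w ⟨w1, w2, w3⟩ => ⟨⟨w1, w2⟩, ⟨by simp only; linarith, by simp only; linarith⟩⟩
  have eF : F '' D = (fun z => p + z) '' (L '' D) := by rw [image_image]; rfl
  have eH : convexHull ℝ {p, q, r} = F '' D := by
    refine subset_antisymm (convexHull_min ?_ (eF ▸ (cD.linear_image L).translate p)) ?_
    · rintro z (rfl | rfl | rfl)
      · exact ⟨(0, 0), by simp [D], by rw [hF, hL]; simp⟩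
      · exact ⟨(1, 0), by simp [D], by rw [hF, hL]; simp⟩
      · exact ⟨(0, 1), by simp [D], by rw [hF, hL]; simp⟩
    · rintro _ ⟨w, ⟨w1, w2, w3⟩, rfl⟩
      have := (convex_convexHull ℝ ({p, q, r} : Set (ℝ × ℝ))).sum_mem (t := Finset.univ)
        (w := ![1 - w.1 - w.2, w.1, w.2]) (z := ![p, q, r])
        (fun i _ => by fin_cases i <;> simp <;> linarith) (by simp [Fin.sum_univ_three]; ring)
        (fun i _ => subset_convexHull _ _ (by fin_cases i <;> simp))
      rw [Fin.sum_univ_three] at this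
      rw [hF, hL]
      refine (congrArg (· ∈ convexHull ℝ ({p, q, r} : Set (ℝ × ℝ))) ?_).mp this
      simp only [Matrix.cons_val_zero, Matrix.cons_val_one, Matrix.cons_val]
      module
  rw [eH]
  refine ⟨fun hc => h ?_, ?_, ?_⟩
  · obtain ⟨v, hv⟩ := (collinear_iff_of_mem (p₀ := p) (by simp)).1 hc
    obtain ⟨a, ha⟩ := hv q (by simp)
    obtain ⟨b, hb⟩ := hv r (by simp)
    rw [ha, hb]
    simp [dt]
    ring
  · rw [eF, image_add_left, measure_preimage_add, Measure.addHaar_image_linearMap, hd,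
      div_eq_mul_one_div, ENNReal.ofReal_mul (abs_nonneg _)]
    refine mul_le_mul_right ?_ _
    have : Icc (0 : ℝ) (1 / 2) ×ˢ Icc (0 : ℝ) (1 / 2) ⊆ D := fun w ⟨⟨w1, w2⟩, w3, w4⟩ =>
      ⟨w1, w3, by linarith⟩
    refine le_trans (le_of_eq ?_) (measure_mono this)
    rw [Measure.volume_eq_prod, Measure.prod_prod, Real.volume_Icc,
      ← ENNReal.ofReal_mul (by norm_num)]
    norm_num
  · rw [← F.image_frontier]
    rintro _ ⟨w, hw, rfl⟩
    have w0 : w ∈ D := clD.frontier_subset hw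
    have oD : IsOpen {w : ℝ × ℝ | 0 < w.1 ∧ 0 < w.2 ∧ w.1 + w.2 < 1} := by
      simp only [ofPred_and]
      refine IsOpen.inter (isOpen_lt ?_ ?_) (IsOpen.inter (isOpen_lt ?_ ?_)
        (isOpen_lt ?_ ?_)) <;> fun_prop
    have w1 : ¬(0 < w.1 ∧ 0 < w.2 ∧ w.1 + w.2 < 1) := fun k => hw.2
      (interior_maximal (s := D) (fun z hz => ⟨hz.1.le, hz.2.1.le, hz.2.2.le⟩) oD k)
    obtain ⟨a1, a2, a3⟩ := w0
    rw [hF, hL]
    rcases a1.eq_or_lt with b1 | b1
    · refine h2 ⟨1 - w.2, w.2, by linarith, a2, by ring, ?_⟩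
      rw [← b1]; module
    rcases a2.eq_or_lt with b2 | b2
    · refine h1 ⟨1 - w.1, w.1, by linarith, a1, by ring, ?_⟩
      rw [← b2]; module
    have b3 : w.2 = 1 - w.1 := by
      by_contra k
      exact w1 ⟨b1, b2, lt_of_le_of_ne a3 fun e => k (by linarith)⟩
    refine h3 ⟨w.1, w.2, a1, a2, by linarith, ?_⟩
    rw [b3]; module

lemma quad' {S : Set (ℝ × ℝ)} {a a' b b' : ℝ × ℝ} {η : ℝ} (hη : 0 ≤ η) (h : Q a a' b b')
    (u1 : η < |dt a a' b|) (u2 : η < |dt a a' b'|) (v1 : η < |dt b b' a|)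
    (v2 : η < |dt b b' a'|)
    (h1 : segment ℝ a b ⊆ S) (h2 : segment ℝ a b' ⊆ S) (h3 : segment ℝ a' b ⊆ S)
    (h4 : segment ℝ a' b' ⊆ S) :
    ∃ p q r : ℝ × ℝ, ¬Collinear ℝ {p, q, r} ∧
      ENNReal.ofReal (η / 8) ≤ volume (convexHull ℝ {p, q, r}) ∧
      frontier (convexHull ℝ {p, q, r}) ⊆ S := by
  have sw (x y z : ℝ × ℝ) : dt y x z = - dt x y z := by unfold dt; ring
  wlog w : 0 < dt a a' b generalizing a a'
  · refine this ⟨by rw [mul_comm]; exact h.1, by rw [sw a a', sw a a', neg_mul_neg]; exact h.2⟩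
      (by rwa [sw, abs_neg]) (by rwa [sw, abs_neg]) v2 v1 h3 h4 h1 h2 ?_
    rw [sw, neg_pos]
    exact lt_of_le_of_ne (not_lt.1 w) (abs_pos.1 (hη.trans_lt u1))
  wlog w' : dt b b' a < 0 generalizing b b'
  · refine this ⟨by rw [sw b b', sw b b', neg_mul_neg]; exact h.1, by rw [mul_comm]; exact h.2⟩
      u2 u1 (by rwa [sw, abs_neg]) (by rwa [sw, abs_neg]) h2 h1 h4 h3
      ((mul_pos_iff_of_pos_left w).1 h.2) ?_
    rw [sw, neg_lt_zero]
    exact lt_of_le_of_ne (not_lt.1 w') (abs_pos.1 (hη.trans_lt v1)).symm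
  have p1 : 0 < dt a a' b' := (mul_pos_iff_of_pos_left w).1 h.2
  have p2 : dt b b' a' < 0 := by
    by_contra! k
    nlinarith [h.1]
  rw [abs_of_pos p1] at u2
  rw [abs_of_neg w'] at v1
  set u := dt a a' b with hu
  set u' := dt a a' b' with hu'
  set v := dt b b' a with hv
  set v' := dt b b' a' with hv'
  have e : u - v' = u' - v := by simp only [hu, hu', hv, hv', dt]; ring
  have W : 0 < u - v' := by linarith
  obtain ⟨s, hs⟩ : ∃ s, s = u / (u - v') := ⟨_, rfl⟩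
  obtain ⟨t, ht⟩ : ∃ t, t = u' / (u - v') := ⟨_, rfl⟩
  have s0 : 0 < s := hs ▸ div_pos w W
  have s1 : s < 1 := hs ▸ (div_lt_one W).2 (by linarith)
  have t0 : 0 < t := ht ▸ div_pos p1 W
  have t1 : t < 1 := ht ▸ (div_lt_one W).2 (by linarith)
  have es : s * (u - v') = u := by rw [hs]; field_simp
  have et : t * (u - v') = u' := by rw [ht]; field_simp
  have ep : (1 - s) • a + s • b' = (1 - t) • a' + t • b := by
    ext <;> simp only [Prod.fst_add, Prod.snd_add, Prod.smul_fst, Prod.smul_snd, smul_eq_mul] <;>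
      refine mul_right_cancel₀ W.ne' ?_
    · have : (u - v') * a.1 + u * (b'.1 - a.1) = (u - v') * a'.1 + u' * (b.1 - a'.1) := by
        simp only [hu, hu', hv', dt]; ring
      linear_combination this + (b'.1 - a.1) * es - (b.1 - a'.1) * et
    · have : (u - v') * a.2 + u * (b'.2 - a.2) = (u - v') * a'.2 + u' * (b.2 - a'.2) := by
        simp only [hu, hu', hv', dt]; ring
      linear_combination this + (b'.2 - a.2) * es - (b.2 - a'.2) * et
  set p := (1 - s) • a + s • b' with hp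
  have q1 : p ∈ segment ℝ a b' := ⟨1 - s, s, by linarith, s0.le, by ring, rfl⟩
  have q2 : p ∈ segment ℝ a' b := ⟨1 - t, t, by linarith, t0.le, by ring, ep.symm⟩
  have c1 := convex_segment (𝕜 := ℝ) a b'
  have c2 := convex_segment (𝕜 := ℝ) a' b
  have d1 : dt a b p = s * v := by simp [hp, hv, dt]; ring
  have d2 : dt a' b' p = (1 - s) * u' := by simp [hp, hu', dt]; ring
  rcases le_total s (1 / 2) with k | k
  · have : η / 2 < dt a' b' p := by rw [d2]; nlinarith
    obtain ⟨k1, k3, k4⟩ := tri' (p := a') (q := b') (r := p) (by linarith) h4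
      ((c2.segment_subset (left_mem_segment _ _ _) q2).trans h3)
      ((c1.segment_subset (right_mem_segment _ _ _) q1).trans h2)
    exact ⟨_, _, _, k1, (ENNReal.ofReal_le_ofReal (by linarith [le_abs_self (dt a' b' p)])).trans k3,
      k4⟩
  · have : dt a b p < - (η / 2) := by rw [d1]; nlinarith
    obtain ⟨k1, k3, k4⟩ := tri' (p := a) (q := b) (r := p) (by linarith) h1
      ((c1.segment_subset (left_mem_segment _ _ _) q1).trans h2)
      ((c2.segment_subset (right_mem_segment _ _ _) q2).trans h3)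
    exact ⟨_, _, _, k1, (ENNReal.ofReal_le_ofReal (by linarith [neg_le_abs (dt a b p)])).trans k3,
      k4⟩

theorem main' : ∀ ε : ℝ, 0 < ε → ∃ δ : ℝ, 0 < δ ∧
      ∀ S : Set (ℝ × ℝ), NullMeasurableSet S volume → 0 < volume S → volume S < ⊤ →
        NullMeasurableSet {p : (ℝ × ℝ) × (ℝ × ℝ) | segment ℝ p.1 p.2 ⊆ S} volume →
        ENNReal.ofReal ε * volume S ^ 2 ≤ volume {p : (ℝ × ℝ) × (ℝ × ℝ) | segment ℝ p.1 p.2 ⊆ S} →
        ∃ p q r : ℝ × ℝ, ¬Collinear ℝ {p, q, r} ∧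
          ENNReal.ofReal δ * volume S ≤ volume (convexHull ℝ {p, q, r}) ∧
          frontier (convexHull ℝ {p, q, r}) ⊆ S := by
  intro ε hε
  obtain ⟨θ, hθ⟩ : ∃ θ : ℝ, θ = ε ^ 9 / 1000 := ⟨_, rfl⟩
  have θ0 : 0 < θ := by rw [hθ]; positivity
  refine ⟨θ ^ 2 / 8, by positivity, fun S0 _ h0 h1 hG h => ?_⟩
  obtain ⟨G, g1, g2, g3⟩ := hG.exists_measurable_subset_ae_eq
  rw [← measure_congr g3] at h
  have hS := measurableSet_toMeasurable volume S0
  have sS := subset_toMeasurable volume S0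
  rw [← measure_toMeasurable S0] at h0 h1 h ⊢
  generalize toMeasurable volume S0 = S at hS sS h0 h1 h ⊢
  obtain ⟨m, m0, hm⟩ : ∃ m : ℝ, 0 < m ∧ volume S = ENNReal.ofReal m :=
    ⟨(volume S).toReal, ENNReal.toReal_pos h0.ne' h1.ne, (ENNReal.ofReal_toReal h1.ne).symm⟩
  let μ : Measure (ℝ × ℝ) := (volume S)⁻¹ • volume.restrict S
  have : IsProbabilityMeasure μ := ⟨by
    simp only [μ, Measure.smul_apply, Measure.restrict_apply_univ, smul_eq_mul]
    exact ENNReal.inv_mul_cancel h0.ne' h1.ne⟩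
  have g4 : ENNReal.ofReal ε ≤ μ.prod μ G := by
    have : Fact (volume S < ⊤) := ⟨h1⟩
    have hs : G ⊆ S ×ˢ S := fun p hp =>
      ⟨sS (g1 hp (left_mem_segment _ _ _)), sS (g1 hp (right_mem_segment _ _ _))⟩
    simp only [μ]
    rw [Measure.prod_smul_left, Measure.prod_smul_right, Measure.prod_restrict,
      Measure.smul_apply, Measure.smul_apply, Measure.restrict_apply' (hS.prod hS),
      inter_eq_self_of_subset_left hs, smul_eq_mul, smul_eq_mul]
    refine le_trans (le_of_eq ?_) (mul_le_mul_right (mul_le_mul_right h _) _)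
    have := ENNReal.inv_mul_cancel h0.ne' h1.ne
    calc _ = ENNReal.ofReal ε * ((volume S)⁻¹ * volume S) * ((volume S)⁻¹ * volume S) := by
          rw [this, mul_one, mul_one]
      _ = _ := by ring
  have fb (q : (ℝ × ℝ) × (ℝ × ℝ)) : μ (Prod.mk q ⁻¹' (E1 S (θ * m) ∪ E2 S (θ * m) (θ ^ 2 * m))) ≤
      ENNReal.ofReal (4 * θ) := by
    simp only [μ, Measure.smul_apply, smul_eq_mul]
    rw [Measure.restrict_apply' hS, preimage_union, union_inter_distrib_right]
    have a1 := f1 hS (τ := θ * m) (by positivity) q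
    have a2 := (measure_mono (inter_subset_left (t := S))).trans
      (f2 hS (τ := θ * m) (η := θ ^ 2 * m) (by positivity) (by positivity) q)
    refine (mul_le_mul_right ((measure_union_le _ _).trans (add_le_add a1 a2)) _).trans
      (le_of_eq ?_)
    rw [hm, ← ENNReal.ofReal_inv_of_pos m0, ← ENNReal.ofReal_mul (by positivity),
      ← ENNReal.ofReal_add (by positivity) (by positivity), ← ENNReal.ofReal_mul (by positivity)]
    congr 1
    field_simp
    ring
  obtain ⟨ω, o1, o2⟩ := six μ g2 ((m1 hS _).union (m2 hS _ _)) fb (by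
    refine lt_of_lt_of_le ?_ (pow_le_pow_left' g4 9)
    rw [← ENNReal.ofReal_pow hε.le, show (216 : ℝ≥0∞) = ENNReal.ofReal 216 by simp,
      ← ENNReal.ofReal_mul (by norm_num), ENNReal.ofReal_lt_ofReal_iff (by positivity)]
    linarith [pow_pos hε 9])
  have η0 : 0 ≤ θ ^ 2 * m := by positivity
  obtain ⟨i, i', j, j', e1, e2, hq⟩ := exQ (ω := ω) fun i j k a b c =>
    abs_pos.1 (η0.trans_lt (big o2 a b c))
  obtain ⟨p, q, r, c1, c3, c4⟩ := quad' (S := S0) η0 hq (big o2 (by simpa) (by simp) (by simp))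
    (big o2 (by simpa) (by simp) (by simp)) (big o2 (by simpa) (by simp) (by simp))
    (big o2 (by simpa) (by simp) (by simp)) (g1 (o1 i j)) (g1 (o1 i j')) (g1 (o1 i' j))
    (g1 (o1 i' j'))
  refine ⟨p, q, r, c1, le_trans (le_of_eq ?_) c3, c4⟩
  rw [hm, ← ENNReal.ofReal_mul (by positivity)]
  congr 1
  ring

end Pool.Agent.H.MP_e9a110_co
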